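import Pool.Agent.H19.Chv.HS

/-!
# The core inequality for down-sets
-/

set_option autoImplicit false
set_option linter.unusedSectionVars false

open Finset

namespace Pool.Agent.H19.Chv

open Pool.Agent.H60.Flow

variable {ι : Type*} [Fintype ι] [DecidableEq ι]

theorem compl_symmDiff' (B T : Finset ι) : (symmDiff Bᶜ T)ᶜ = symmDiff B T := by
  ext x
  simp only [Finset.mem_compl, Finset.mem_symmDiff]
  tauto

theorem count (I : Finset (Finset ι)) (F : Finset ι → ℝ) :
    ∑ S ∈ univ.filter (fun S : Finset ι => Sᶜ ∈ I), ∑ S' ∈ univ.filter (fun S : Finset ι => Sᶜ ∈ I), F (symmDiff S S') =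
      ∑ T, F T * ((I.filter (fun B => symmDiff B T ∈ I)).card : ℝ) := by
  have h1 : ∀ S : Finset ι, ∑ S' ∈ univ.filter (fun S : Finset ι => Sᶜ ∈ I), F (symmDiff S S') =
      ∑ T, if (symmDiff S T)ᶜ ∈ I then F T else 0 := by
    intro S
    rw [Finset.sum_filter]
    refine Fintype.sum_equiv (Equiv.mk (fun A : Finset ι => symmDiff S A) (fun A => symmDiff S A)
      (fun A => by simp) (fun A => by simp)) _ _ fun S' => ?_
    simp
  simp only [h1]
  rw [Finset.sum_comm]
  refine Finset.sum_congr rfl fun T _ => ?_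
  rw [Finset.sum_filter, Finset.card_filter, Nat.cast_sum, Finset.mul_sum]
  have h2 : ∑ S : Finset ι, (if Sᶜ ∈ I then (if (symmDiff S T)ᶜ ∈ I then F T else 0) else 0) =
      ∑ B : Finset ι, (if B ∈ I then (if symmDiff B T ∈ I then F T else 0) else 0) := by
    refine Fintype.sum_equiv (Equiv.mk (fun A : Finset ι => Aᶜ) (fun A => Aᶜ) (fun A => compl_compl A)
      (fun A => compl_compl A)) _ _ fun S => ?_
    simp only [Equiv.coe_fn_mk]
    have : symmDiff Sᶜ T = (symmDiff S T)ᶜ := by
      rw [← compl_symmDiff' S T, compl_compl]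
    simp only [this]
  rw [h2, ← Finset.sum_filter]
  have h3 : univ.filter (fun B : Finset ι => B ∈ I) = I := by ext B; simp
  rw [h3]
  refine Finset.sum_congr rfl fun B _ => ?_
  split_ifs <;> simp

theorem card_le (I : Finset (Finset ι)) {T : Finset ι} {i : ι} (hi : i ∈ T) :
    (I.filter (fun B => symmDiff B T ∈ I)).card ≤ 2 * (I.filter (fun B => i ∈ B)).card := by
  have h1 : (I.filter (fun B => symmDiff B T ∈ I)).card =
      ((I.filter (fun B => symmDiff B T ∈ I)).filter (fun B => i ∈ B)).card +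
      ((I.filter (fun B => symmDiff B T ∈ I)).filter (fun B => ¬ i ∈ B)).card :=
    (Finset.card_filter_add_card_filter_not _).symm
  have h2 : ((I.filter (fun B => symmDiff B T ∈ I)).filter (fun B => i ∈ B)).card ≤ (I.filter (fun B => i ∈ B)).card := by
    refine Finset.card_le_card fun B hB => ?_
    simp only [Finset.mem_filter] at hB ⊢
    exact ⟨hB.1.1, hB.2⟩
  have h3 : ((I.filter (fun B => symmDiff B T ∈ I)).filter (fun B => ¬ i ∈ B)).card ≤ (I.filter (fun B => i ∈ B)).card := by
    refine Finset.card_le_card_of_injOn (fun B => symmDiff B T) ?_ ?_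
    · intro B hB
      simp only [Finset.coe_filter, Finset.mem_filter, Set.mem_ofPred_eq] at hB ⊢
      exact ⟨hB.1.2, by rw [Finset.mem_symmDiff]; exact Or.inr ⟨hi, hB.2⟩⟩
    · intro B _ B' _ h
      exact symmDiff_left_injective T h
  omega

theorem core (I : Finset (Finset ι)) (hI : ∀ A B, A ⊆ B → B ∈ I → A ∈ I) (v : Finset ι → ℝ) (hv : Monotone v) :
    ∑ y ∈ I, ((max (v y) 0) ^ 2 + (max (- v yᶜ) 0) ^ 2) ≤
      ∑ T, hat v T ^ 2 * ((I.filter (fun B => symmDiff B T ∈ I)).card : ℝ) := by
  classical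
  set v' : Finset ι → ℝ := fun y => - v yᶜ with hv'def
  have hv' : Monotone v' := fun A B hAB => neg_le_neg (hv (Finset.compl_subset_compl.2 hAB))
  set P := I.filter (fun y => 0 < v y) with hP
  set P' := I.filter (fun y => 0 < v' y) with hP'
  obtain ⟨h, h1, h2, h3⟩ := exists_family I hI v hv P (Finset.filter_subset _ _)
  obtain ⟨h', h1', h2', h3'⟩ := exists_family I hI v' hv' P' (Finset.filter_subset _ _)
  let g : ({y // y ∈ P} ⊕ {y // y ∈ P'}) → Finset ι → ℝ := fun j => match j with
    | Sum.inl y => h y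
    | Sum.inr y => fun Y => h' y Yᶜ
  have key := hs (univ.filter (fun S : Finset ι => Sᶜ ∈ I)) v g ?_ ?_
  · rw [count I (fun T => hat v T ^ 2)] at key
    refine le_trans ?_ key
    rw [Fintype.sum_sum_type, Finset.sum_add_distrib]
    refine add_le_add ?_ ?_
    · have e1 : ∑ y ∈ I, (max (v y) 0) ^ 2 = ∑ y : {y // y ∈ P}, (v y) ^ 2 := by
        rw [Finset.sum_coe_sort P (fun y => (v y) ^ 2), hP, Finset.sum_filter]
        refine Finset.sum_congr rfl fun y _ => ?_
        split_ifs with hy
        · rw [max_eq_left hy.le]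
        · rw [max_eq_right (not_lt.1 hy)]; norm_num
      rw [e1]
      refine Finset.sum_le_sum fun y _ => ?_
      have hy0 : 0 < v y := (Finset.mem_filter.1 y.2).2
      have e2 : v y ≤ av (fun Y => v Y * h y Y ^ 2) := by
        have e3 : av (fun Y => v y * h y Y ^ 2) = v y := by
          rw [av_mul_left]
          have := h3 y y.2 y y.2
          rw [if_pos rfl] at this
          have e4 : av (fun Y => h y Y ^ 2) = 1 := by
            rw [← this]; exact av_congr fun Y => by ring
          rw [e4, mul_one]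
        rw [← e3]
        refine av_mono fun Y => ?_
        by_cases hY : v Y < v y
        · rw [h1 y y.2 Y hY]; simp
        · exact mul_le_mul_of_nonneg_right (not_lt.1 hY) (sq_nonneg _)
      exact pow_le_pow_left₀ hy0.le e2 2
    · have e1 : ∑ y ∈ I, (max (- v yᶜ) 0) ^ 2 = ∑ y : {y // y ∈ P'}, (v' y) ^ 2 := by
        rw [Finset.sum_coe_sort P' (fun y => (v' y) ^ 2), hP', Finset.sum_filter]
        refine Finset.sum_congr rfl fun y _ => ?_
        split_ifs with hy
        · rw [max_eq_left hy.le]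
        · rw [max_eq_right (not_lt.1 hy)]; norm_num
      rw [e1]
      refine Finset.sum_le_sum fun y _ => ?_
      have hy0 : 0 < v' y := (Finset.mem_filter.1 y.2).2
      have e2 : v' y ≤ - av (fun Y => v Y * h' y Yᶜ ^ 2) := by
        have e3 : av (fun Y => v' y * h' y Y ^ 2) = v' y := by
          rw [av_mul_left]
          have := h3' y y.2 y y.2
          rw [if_pos rfl] at this
          have e4 : av (fun Y => h' y Y ^ 2) = 1 := by
            rw [← this]; exact av_congr fun Y => by ring
          rw [e4, mul_one]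
        rw [← av_neg, ← av_compl, ← e3]
        refine av_mono fun Y => ?_
        simp only [compl_compl]
        by_cases hY : v' Y < v' y
        · rw [h1' y y.2 Y hY]; simp
        · rw [← neg_mul]
          exact mul_le_mul_of_nonneg_right (not_lt.1 hY) (sq_nonneg _)
      calc (v' y) ^ 2 ≤ (- av (fun Y => v Y * h' y Yᶜ ^ 2)) ^ 2 := pow_le_pow_left₀ hy0.le e2 2
        _ = (av (fun Y => v Y * h' y Yᶜ ^ 2)) ^ 2 := neg_sq _
  · rintro (y | y) S hS
    · exact h2 y y.2 S (fun hc => hS (Finset.mem_filter.2 ⟨Finset.mem_univ _, hc⟩))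
    · show hat (fun Y => h' y Yᶜ) S = 0
      rw [hat_compl, h2' y y.2 S (fun hc => hS (Finset.mem_filter.2 ⟨Finset.mem_univ _, hc⟩)), mul_zero]
  · have hcross : ∀ y ∈ P, ∀ y' ∈ P', ∀ Y, h y Y * h' y' Yᶜ = 0 := by
      intro y hy y' hy' Y
      by_cases hY : v Y < v y
      · rw [h1 y hy Y hY, zero_mul]
      · have e1 : 0 < v Y := lt_of_lt_of_le (Finset.mem_filter.1 hy).2 (not_lt.1 hY)
        have e2 : v' Yᶜ < v' y' := by
          refine lt_trans ?_ (Finset.mem_filter.1 hy').2
          simp only [hv'def, compl_compl]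
          linarith
        rw [h1' y' hy' Yᶜ e2, mul_zero]
    rintro (y | y) (y' | y')
    · have := h3 y y.2 y' y'.2
      show av (fun Y => h y Y * h y' Y) = _
      rw [this]
      simp only [Sum.inl.injEq, Subtype.ext_iff]
    · show av (fun Y => h y Y * h' y' Yᶜ) = _
      rw [av_congr (hcross y y.2 y' y'.2), av_const]
      simp
    · show av (fun Y => h' y Yᶜ * h y' Y) = _
      rw [av_congr (g := fun _ => 0) (fun Y => by rw [mul_comm]; exact hcross y' y'.2 y y.2 Y), av_const]
      simp
    · have := h3' y y.2 y' y'.2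
      show av (fun Y => h' y Yᶜ * h' y' Yᶜ) = _
      rw [av_compl (fun Y => h' y Y * h' y' Y), this]
      simp only [Sum.inr.injEq, Subtype.ext_iff]

/-- Layer cake for a monotone function. -/
theorem layer (d K : Finset ι → ℝ) (hK : Monotone K) (h0 : ∑ A, d A = 0)
    (hd : ∀ I : Finset (Finset ι), (∀ A B, A ⊆ B → B ∈ I → A ∈ I) → ∑ A ∈ I, d A ≤ 0) :
    0 ≤ ∑ A, K A * d A := by
  classical
  have main : ∀ s : Finset (Finset ι), (∀ A B, A ⊆ B → B ∈ s → A ∈ s) → ∀ c, (∀ x ∈ s, K x ≤ c) →
      c * ∑ A ∈ s, d A ≤ ∑ A ∈ s, K A * d A := by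
    intro s
    refine Finset.induction_on_max_value (fun A : Finset ι => toLex (K A, A.card))
      (motive := fun s => (∀ A B, A ⊆ B → B ∈ s → A ∈ s) → ∀ c, (∀ x ∈ s, K x ≤ c) →
      c * ∑ A ∈ s, d A ≤ ∑ A ∈ s, K A * d A) s ?_ ?_
    · intro _ c _; simp
    · intro a s ha hmax ih hdown c hc
      have hs : ∀ A B, A ⊆ B → B ∈ s → A ∈ s := by
        intro A B hAB hB
        rcases Finset.mem_insert.1 (hdown A B hAB (Finset.mem_insert_of_mem hB)) with rfl | h
        · exfalso
          have hne : A ≠ B := fun e => ha (e ▸ hB)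
          have h1 : A.card < B.card := Finset.card_lt_card (Finset.ssubset_iff_subset_ne.2 ⟨hAB, hne⟩)
          have h2 := hmax B hB
          rw [Prod.Lex.toLex_le_toLex] at h2
          rcases h2 with h2 | ⟨_, h2⟩
          · exact absurd (hK hAB) (not_le.2 h2)
          · exact absurd h2 (not_le.2 h1)
        · exact h
      have hKa : ∀ x ∈ s, K x ≤ K a := by
        intro x hx
        have h2 := hmax x hx
        rw [Prod.Lex.toLex_le_toLex] at h2
        rcases h2 with h2 | ⟨h2, _⟩
        · exact h2.le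
        · exact h2.le
      have h1 := ih hs (K a) hKa
      have h2 := hd (insert a s) hdown
      have h3 := hc a (Finset.mem_insert_self a s)
      have h4 : (c - K a) * ∑ A ∈ insert a s, d A ≤ 0 :=
        mul_nonpos_of_nonneg_of_nonpos (by linarith) h2
      rw [Finset.sum_insert ha] at h4 ⊢
      rw [Finset.sum_insert ha]
      nlinarith
  obtain ⟨c, hc⟩ : ∃ c, ∀ x : Finset ι, K x ≤ c := ⟨K univ, fun x => hK (Finset.subset_univ x)⟩
  have := main univ (fun _ _ _ _ => Finset.mem_univ _) c (fun x _ => hc x)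
  rw [h0, mul_zero] at this
  exact this

end Pool.Agent.H19.Chv
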