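import Pool.Agent.H60.Flow.Cor

/-!
# Functions supported on an up-set and orthogonal to the characters of a down-set
-/

set_option autoImplicit false
set_option linter.unusedSectionVars false

open Finset

namespace Pool.Agent.H19.Chv

open Pool.Agent.H60.Flow

variable {ι : Type*} [Fintype ι] [DecidableEq ι]

theorem ch_eq_sum (S Y : Finset ι) :
    ch S Y = ∑ T ∈ S.powerset, (-2) ^ T.card * (if Y ⊆ Tᶜ then (1 : ℝ) else 0) := by
  have h1 : ch S Y = ∏ i ∈ S, (1 + (-2) * (if i ∈ Y then (0 : ℝ) else 1)) := by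
    unfold ch
    refine Finset.prod_congr rfl fun i _ => ?_
    unfold sg
    split_ifs <;> norm_num
  rw [h1, Finset.prod_one_add]
  refine Finset.sum_congr rfl fun T _ => ?_
  rw [Finset.prod_mul_distrib, Finset.prod_const]
  congr 1
  split_ifs with h
  · refine Finset.prod_eq_one fun i hi => ?_
    have : i ∉ Y := fun hY => by
      have := h hY
      simp [hi] at this
    simp [this]
  · have : ∃ i ∈ T, i ∈ Y := by
      by_contra hc
      push Not at hc
      refine h fun i hi => ?_
      simp only [Finset.mem_compl]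
      exact fun hT => hc i hT hi
    obtain ⟨i, hT, hY⟩ := this
    exact Finset.prod_eq_zero hT (by simp [hY])

theorem hat_eq_zero_of {I : Finset (Finset ι)} (hI : ∀ A B, A ⊆ B → B ∈ I → A ∈ I) {h : Finset ι → ℝ}
    (h0 : ∀ y, y ∉ I → ∑ Y, h Y * (if Y ⊆ y then (1 : ℝ) else 0) = 0) {S : Finset ι} (hS : Sᶜ ∉ I) :
    hat h S = 0 := by
  have h1 : ∑ Y, h Y * ch S Y = 0 := by
    simp only [ch_eq_sum, Finset.mul_sum]
    rw [Finset.sum_comm]
    refine Finset.sum_eq_zero fun T hT => ?_
    have hT' : Tᶜ ∉ I := fun hc => hS (hI _ _ (Finset.compl_subset_compl.2 (Finset.mem_powerset.1 hT)) hc)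
    have := h0 _ hT'
    calc ∑ Y, h Y * ((-2) ^ T.card * (if Y ⊆ Tᶜ then (1 : ℝ) else 0))
        = (-2) ^ T.card * ∑ Y, h Y * (if Y ⊆ Tᶜ then (1 : ℝ) else 0) := by
          rw [Finset.mul_sum]
          exact Finset.sum_congr rfl fun Y _ => by ring
      _ = 0 := by rw [this, mul_zero]
  unfold hat av
  rw [h1, zero_div]

theorem exists_vec {κ : Type*} [Fintype κ] (I : Finset (Finset ι)) (hI : ∀ A B, A ⊆ B → B ∈ I → A ∈ I)
    (v : Finset ι → ℝ) (hv : Monotone v) (c : ℝ) (u : κ → Finset ι → ℝ)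
    (hc : Fintype.card κ < (I.filter (fun y => c ≤ v y)).card) :
    ∃ h : Finset ι → ℝ, (∀ Y, v Y < c → h Y = 0) ∧ (∀ S, Sᶜ ∉ I → hat h S = 0) ∧
      (∀ k, av (fun Y => h Y * u k Y) = 0) ∧ av (fun Y => h Y ^ 2) = 1 := by
  classical
  let L : ({Y : Finset ι // c ≤ v Y} → ℝ) →ₗ[ℝ] (({y : Finset ι // c ≤ v y ∧ y ∉ I} ⊕ κ) → ℝ) :=
    { toFun := fun g x => match x with
        | Sum.inl y => ∑ Y, g Y * (if (Y : Finset ι) ⊆ y then (1 : ℝ) else 0)
        | Sum.inr k => ∑ Y, g Y * u k Y
      map_add' := fun g g' => by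
        ext x
        rcases x with y | k
        · simp only [Pi.add_apply, add_mul, Finset.sum_add_distrib]
        · simp only [Pi.add_apply, add_mul, Finset.sum_add_distrib]
      map_smul' := fun a g => by
        ext x
        rcases x with y | k
        · simp only [Pi.smul_apply, smul_eq_mul, RingHom.id_apply, Finset.mul_sum, mul_assoc]
        · simp only [Pi.smul_apply, smul_eq_mul, RingHom.id_apply, Finset.mul_sum, mul_assoc] }
  have hcard : Module.finrank ℝ (({y : Finset ι // c ≤ v y ∧ y ∉ I} ⊕ κ) → ℝ) <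
      Module.finrank ℝ ({Y : Finset ι // c ≤ v Y} → ℝ) := by
    rw [Module.finrank_fintype_fun_eq_card, Module.finrank_fintype_fun_eq_card, Fintype.card_sum,
      Fintype.card_subtype, Fintype.card_subtype]
    have h1 : (univ.filter (fun Y : Finset ι => c ≤ v Y)).card =
        (univ.filter (fun y : Finset ι => c ≤ v y ∧ y ∉ I)).card + (I.filter (fun y => c ≤ v y)).card := by
      rw [← Finset.card_union_of_disjoint]
      · congr 1
        ext Y
        simp only [Finset.mem_filter, Finset.mem_univ, true_and, Finset.mem_union]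
        tauto
      · rw [Finset.disjoint_left]
        intro Y h1 h2
        exact (Finset.mem_filter.1 h1).2.2 (Finset.mem_filter.1 h2).1
    omega
  obtain ⟨g, hgk, hg0⟩ := Submodule.exists_mem_ne_zero_of_ne_bot (LinearMap.ker_ne_bot_of_finrank_lt (f := L) hcard)
  have hg : ∀ x, L g x = 0 := fun x => by
    rw [LinearMap.mem_ker] at hgk
    rw [hgk]; rfl
  let h : Finset ι → ℝ := fun Y => if hY : c ≤ v Y then g ⟨Y, hY⟩ else 0
  have hsum : ∀ w : Finset ι → ℝ, ∑ Y, h Y * w Y = ∑ Y : {Y : Finset ι // c ≤ v Y}, g Y * w Y := by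
    intro w
    have h1 : ∑ Y, h Y * w Y = ∑ Y ∈ univ.filter (fun Y : Finset ι => c ≤ v Y), h Y * w Y := by
      rw [Finset.sum_filter]
      refine Finset.sum_congr rfl fun Y _ => ?_
      by_cases hY : c ≤ v Y
      · simp [hY]
      · simp [h, hY]
    rw [h1]
    symm
    refine Finset.sum_bij (fun Y _ => (Y : Finset ι)) ?_ ?_ ?_ ?_
    · intro Y _; simp [Y.2]
    · intro Y _ Y' _ e; exact Subtype.ext e
    · intro Y hY; exact ⟨⟨Y, (Finset.mem_filter.1 hY).2⟩, Finset.mem_univ _, rfl⟩
    · intro Y _; simp [h, Y.2]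
  have hsupp : ∀ Y, v Y < c → h Y = 0 := fun Y hY => by simp [h, not_le.2 hY]
  have hdown : ∀ y, y ∉ I → ∑ Y, h Y * (if Y ⊆ y then (1 : ℝ) else 0) = 0 := by
    intro y hy
    by_cases hcy : c ≤ v y
    · rw [hsum]
      exact hg (Sum.inl ⟨y, hcy, hy⟩)
    · refine Finset.sum_eq_zero fun Y _ => ?_
      split_ifs with hs
      · rw [hsupp Y (lt_of_le_of_lt (hv hs) (not_le.1 hcy)), zero_mul]
      · rw [mul_zero]
  have hu : ∀ k, ∑ Y, h Y * u k Y = 0 := fun k => by
    rw [hsum]
    exact hg (Sum.inr k)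
  have hne : ∃ Y, h Y ≠ 0 := by
    by_contra hcon
    push Not at hcon
    apply hg0
    ext Y
    have := hcon Y
    simp only [h, Y.2, dif_pos] at this
    exact this
  have hpos : 0 < av (fun Y => h Y ^ 2) := by
    obtain ⟨Y, hY⟩ := hne
    unfold av
    refine div_pos ?_ card_pos'
    exact Finset.sum_pos' (fun _ _ => sq_nonneg _) ⟨Y, Finset.mem_univ _, by positivity⟩
  set s := av (fun Y => h Y ^ 2) with hs
  have hsq : Real.sqrt s ^ 2 = s := Real.sq_sqrt hpos.le
  have hsp : 0 < Real.sqrt s := Real.sqrt_pos.2 hpos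
  refine ⟨fun Y => (Real.sqrt s)⁻¹ * h Y, fun Y hY => ?_, fun S hS => ?_, fun k => ?_, ?_⟩
  · simp only [hsupp Y hY, mul_zero]
  · rw [hat_mul_left, hat_eq_zero_of hI hdown hS, mul_zero]
  · have : av (fun Y => (Real.sqrt s)⁻¹ * h Y * u k Y) = (Real.sqrt s)⁻¹ * av (fun Y => h Y * u k Y) := by
      rw [← av_mul_left]; exact av_congr fun Y => by ring
    rw [this]
    unfold av
    rw [hu k]; simp
  · have : av (fun Y => ((Real.sqrt s)⁻¹ * h Y) ^ 2) = ((Real.sqrt s)⁻¹) ^ 2 * s := by
      rw [hs, ← av_mul_left]; exact av_congr fun Y => by ring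
    rw [this, inv_pow, hsq, inv_mul_cancel₀ hpos.ne']

theorem exists_family (I : Finset (Finset ι)) (hI : ∀ A B, A ⊆ B → B ∈ I → A ∈ I)
    (v : Finset ι → ℝ) (hv : Monotone v) (P : Finset (Finset ι)) (hP : P ⊆ I) :
    ∃ h : Finset ι → Finset ι → ℝ, (∀ y ∈ P, ∀ Y, v Y < v y → h y Y = 0) ∧
      (∀ y ∈ P, ∀ S, Sᶜ ∉ I → hat (h y) S = 0) ∧
      (∀ y ∈ P, ∀ y' ∈ P, av (fun Y => h y Y * h y' Y) = if y = y' then 1 else 0) := by
  classical
  revert hP
  refine Finset.induction_on_min_value v (motive := fun P => P ⊆ I → ∃ h : Finset ι → Finset ι → ℝ,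
      (∀ y ∈ P, ∀ Y, v Y < v y → h y Y = 0) ∧
      (∀ y ∈ P, ∀ S, Sᶜ ∉ I → hat (h y) S = 0) ∧
      (∀ y ∈ P, ∀ y' ∈ P, av (fun Y => h y Y * h y' Y) = if y = y' then 1 else 0)) P ?_ ?_
  · intro _
    exact ⟨fun _ _ => 0, by simp, by simp, by simp⟩
  · intro a s ha hmin ih hsub
    obtain ⟨h, h1, h2, h3⟩ := ih (fun x hx => hsub (Finset.mem_insert_of_mem hx))
    have hcard : Fintype.card {y // y ∈ s} < (I.filter (fun y => v a ≤ v y)).card := by
      have e1 : insert a s ⊆ I.filter (fun y => v a ≤ v y) := by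
        intro y hy
        rw [Finset.mem_filter]
        refine ⟨hsub hy, ?_⟩
        rcases Finset.mem_insert.1 hy with rfl | hy
        · exact le_rfl
        · exact hmin y hy
      have e2 := Finset.card_le_card e1
      rw [Finset.card_insert_of_notMem ha] at e2
      rw [Fintype.card_coe]
      omega
    obtain ⟨g, g1, g2, g3, g4⟩ := exists_vec I hI v hv (v a) (fun k : {y // y ∈ s} => h k) hcard
    refine ⟨fun y => if y = a then g else h y, ?_, ?_, ?_⟩
    · intro y hy Y hY
      by_cases hya : y = a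
      · subst hya; simp only [if_true]; exact g1 Y hY
      · simp only [hya, if_false]
        exact h1 y ((Finset.mem_insert.1 hy).resolve_left hya) Y hY
    · intro y hy S hS
      by_cases hya : y = a
      · subst hya; simp only [if_true]; exact g2 S hS
      · simp only [hya, if_false]
        exact h2 y ((Finset.mem_insert.1 hy).resolve_left hya) S hS
    · intro y hy y' hy'
      by_cases hya : y = a
      · by_cases hya' : y' = a
        · subst hya; subst hya'
          simp only [if_true]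
          rw [← g4]
          exact av_congr fun Y => by ring
        · have hs' := (Finset.mem_insert.1 hy').resolve_left hya'
          have hne : ¬ y = y' := fun e => hya' (e ▸ hya)
          simp only [hya, if_true, hya', if_false]
          rw [if_neg (fun e => hya' e.symm)]
          exact g3 ⟨y', hs'⟩
      · have hs := (Finset.mem_insert.1 hy).resolve_left hya
        by_cases hya' : y' = a
        · simp only [hya', if_true, hya, if_false]
          have := g3 ⟨y, hs⟩
          rw [← this]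
          exact av_congr fun Y => by ring
        · have hs' := (Finset.mem_insert.1 hy').resolve_left hya'
          simp only [hya, hya', if_false]
          exact h3 y hs y' hs'

end Pool.Agent.H19.Chv
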