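import Pool.Agent.H19.Chv.Core

/-!
# The Fourier-weighted flow
-/

set_option autoImplicit false
set_option linter.unusedSectionVars false

open Finset

namespace Pool.Agent.H19.Chv

open Pool.Agent.H60.Flow

variable {n : ℕ}

theorem sum_down_le (v : Finset (Fin n) → ℝ) (hv : Monotone v) (I : Finset (Finset (Fin n)))
    (hI : ∀ A B, A ⊆ B → B ∈ I → A ∈ I) :
    ∑ A ∈ I, ((max (v A) 0) ^ 2 + (max (- v Aᶜ) 0) ^ 2) ≤ ∑ A ∈ I, (mean v ^ 2 + 2 * til v A) := by
  refine (core I hI v hv).trans ?_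
  have h1 : ∑ A ∈ I, til v A = ∑ i, lam v i * ((I.filter (fun B => i ∈ B)).card : ℝ) := by
    unfold til
    have e1 : ∀ A : Finset (Fin n), ∑ i ∈ A, lam v i = ∑ i, lam v i * (if i ∈ A then 1 else 0) := by
      intro A; simp
    simp only [e1]
    rw [Finset.sum_comm]
    refine Finset.sum_congr rfl fun i _ => ?_
    rw [← Finset.mul_sum, Finset.card_filter, Nat.cast_sum]
    simp
  rw [Finset.sum_add_distrib, ← Finset.mul_sum, h1, sum_lam_mul, Finset.sum_const, nsmul_eq_mul, mean_eq,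
    ← hat_empty, Finset.mul_sum]
  have h2 : (I.card : ℝ) * hat v ∅ ^ 2 = ∑ T : Finset (Fin n), (if T = ∅ then (I.card : ℝ) * hat v T ^ 2 else 0) := by
    simp
  rw [h2, ← Finset.sum_add_distrib]
  refine Finset.sum_le_sum fun T _ => ?_
  by_cases hT : T.Nonempty
  · rw [if_neg hT.ne_empty, dif_pos hT, zero_add]
    have := card_le I (Finset.max'_mem T hT)
    have h3 : ((I.filter (fun B => symmDiff B T ∈ I)).card : ℝ) ≤ 2 * ((I.filter (fun B => T.max' hT ∈ B)).card : ℝ) := by
      exact_mod_cast this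
    have h4 := mul_le_mul_of_nonneg_left h3 (sq_nonneg (hat v T))
    linarith
  · have h0 : T = ∅ := Finset.not_nonempty_iff_eq_empty.1 hT
    subst h0
    rw [if_pos rfl]
    have h3 : ((I.filter (fun B => symmDiff B ∅ ∈ I)).card : ℝ) ≤ (I.card : ℝ) := by
      exact_mod_cast Finset.card_le_card (Finset.filter_subset _ _)
    have h4 := mul_le_mul_of_nonneg_left h3 (sq_nonneg (hat v ∅))
    have h5 : (2 : ℝ) * ((if h : (∅ : Finset (Fin n)).Nonempty then
        ((I.filter (fun B => (∅ : Finset (Fin n)).max' h ∈ B)).card : ℝ) else 0) * hat v ∅ ^ 2) = 0 := by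
      simp
    rw [h5]
    linarith

theorem sum_sq_parts (v : Finset (Fin n) → ℝ) :
    ∑ A, ((max (v A) 0) ^ 2 + (max (- v Aᶜ) 0) ^ 2) = ∑ A, (mean v ^ 2 + 2 * til v A) := by
  have h1 : ∑ A : Finset (Fin n), ((max (v A) 0) ^ 2 + (max (- v Aᶜ) 0) ^ 2) = ∑ A, v A ^ 2 := by
    rw [Finset.sum_add_distrib]
    have e1 : ∑ A : Finset (Fin n), (max (- v Aᶜ) 0) ^ 2 = ∑ A, (max (- v A) 0) ^ 2 :=
      Equiv.sum_comp (Equiv.mk (fun A : Finset (Fin n) => Aᶜ) (fun A => Aᶜ) (fun A => compl_compl A)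
        (fun A => compl_compl A)) (fun A => (max (- v A) 0) ^ 2)
    rw [e1, ← Finset.sum_add_distrib]
    exact Finset.sum_congr rfl fun A _ => max_sq_add (v A)
  rw [h1, sum_eq_av, sum_eq_av]
  congr 1
  have h2 := av_mul_til (fun _ => 1) v
  have h3 : ∀ i : Fin n, kap (fun _ => (1 : ℝ)) i = 0 := by
    intro i; unfold kap; exact hat_const 1 (Finset.singleton_nonempty i)
  simp only [h3, mul_zero, Finset.sum_const_zero, av_const, mul_one, one_mul, add_zero] at h2
  rw [av_add, av_const, av_mul_left, h2, mean_eq]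
  ring

theorem ineq (v K : Finset (Fin n) → ℝ) (hv : Monotone v) (hK : Monotone K) :
    ∑ A, K A * (mean v ^ 2 + 2 * til v A) ≤ ∑ A, K A * ((max (v A) 0) ^ 2 + (max (- v Aᶜ) 0) ^ 2) := by
  have h := layer (fun A => ((max (v A) 0) ^ 2 + (max (- v Aᶜ) 0) ^ 2) - (mean v ^ 2 + 2 * til v A)) K hK
    (by rw [Finset.sum_sub_distrib, sum_sq_parts, sub_self])
    (fun I hI => by
      rw [Finset.sum_sub_distrib]
      have := sum_down_le v hv I hI
      linarith)
  simp only [mul_sub, Finset.sum_sub_distrib] at h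
  linarith

/-- The flow for every nondecreasing function. -/
theorem monoFlow (v : Finset (Fin n) → ℝ) (hv : Monotone v) :
    Flows (fun A => mean v ^ 2 + 2 * til v A) (fun A => (max (v A) 0) ^ 2 + (max (- v Aᶜ) 0) ^ 2) := by
  refine flows_of_le (fun A => ?_) (fun A => ?_) fun K hK => ineq v K hv hK
  · have := til_nonneg v A
    positivity
  · positivity

/-- **The Fourier-weighted flow, for every nondecreasing antipodal function.** -/
theorem fourierFlow (f : Finset (Fin n) → ℝ) (hf : Monotone f) (ha : Antip f) : Flows (til f) (sqp f) := by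
  refine flows_of_le (fun A => til_nonneg f A) (fun A => sq_nonneg _) fun K hK => ?_
  have h := ineq f K hf hK
  have h1 : mean f = 0 := by
    rw [mean_eq, ← hat_empty]
    exact hat_odd ha (by simp)
  have h2 : ∑ A, K A * (mean f ^ 2 + 2 * til f A) = 2 * ∑ A, K A * til f A := by
    rw [Finset.mul_sum, h1]
    exact Finset.sum_congr rfl fun A _ => by ring
  have h3 : ∑ A, K A * ((max (f A) 0) ^ 2 + (max (- f Aᶜ) 0) ^ 2) = 2 * ∑ A, K A * sqp f A := by
    rw [Finset.mul_sum]
    refine Finset.sum_congr rfl fun A _ => ?_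
    rw [ha A, neg_neg]
    unfold sqp
    ring
  rw [h2, h3] at h
  linarith

end Pool.Agent.H19.Chv
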