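import Pool.Agent.H19.Chv.Dim

/-!
# The Hilbert-Schmidt bound
-/

set_option autoImplicit false
set_option linter.unusedSectionVars false

open Finset

namespace Pool.Agent.H19.Chv

open Pool.Agent.H60.Flow

variable {ι : Type*} [Fintype ι] [DecidableEq ι]

theorem bessel {J X : Type*} [Fintype J] [DecidableEq J] [Fintype X] (E : J → X → ℝ) (M : X → ℝ)
    (hE : ∀ j k, ∑ x, E j x * E k x = if j = k then 1 else 0) :
    ∑ j, (∑ x, M x * E j x) ^ 2 ≤ ∑ x, M x ^ 2 := by
  set a : J → ℝ := fun j => ∑ x, M x * E j x with ha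
  have h1 : 0 ≤ ∑ x, (M x - ∑ j, a j * E j x) ^ 2 := Finset.sum_nonneg fun _ _ => sq_nonneg _
  have h2 : ∑ x, (M x - ∑ j, a j * E j x) ^ 2 =
      ∑ x, M x ^ 2 - 2 * (∑ x, M x * ∑ j, a j * E j x) + ∑ x, (∑ j, a j * E j x) ^ 2 := by
    rw [Finset.mul_sum, ← Finset.sum_sub_distrib, ← Finset.sum_add_distrib]
    exact Finset.sum_congr rfl fun x _ => by ring
  have h3 : ∑ x, M x * ∑ j, a j * E j x = ∑ j, a j ^ 2 := by
    simp only [Finset.mul_sum]
    rw [Finset.sum_comm]
    refine Finset.sum_congr rfl fun j _ => ?_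
    rw [sq]
    nth_rewrite 2 [ha]
    simp only
    rw [Finset.mul_sum]
    exact Finset.sum_congr rfl fun x _ => by ring
  have h4 : ∑ x, (∑ j, a j * E j x) ^ 2 = ∑ j, a j ^ 2 := by
    have e1 : ∀ x, (∑ j, a j * E j x) ^ 2 = ∑ j, ∑ k, a j * a k * (E j x * E k x) := by
      intro x
      rw [sq, Finset.sum_mul_sum]
      exact Finset.sum_congr rfl fun j _ => Finset.sum_congr rfl fun k _ => by ring
    simp only [e1]
    rw [Finset.sum_comm]
    refine Finset.sum_congr rfl fun j _ => ?_
    rw [Finset.sum_comm]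
    have e2 : ∀ k, ∑ x, a j * a k * (E j x * E k x) = if j = k then a j * a k else 0 := by
      intro k
      rw [← Finset.mul_sum, hE]
      split_ifs <;> simp
    simp only [e2, Finset.sum_ite_eq, Finset.mem_univ, if_true]
    ring
  rw [h2, h3, h4] at h1
  linarith

theorem parseval_mul (f g : Finset ι → ℝ) : ∑ T, hat f T * hat g T = av (fun A => f A * g A) := by
  have h1 := parseval (fun A => f A + g A)
  have h2 := parseval (fun A => f A - g A)
  simp only [hat_add, hat_sub] at h1 h2
  have h3 : ∑ T, hat f T * hat g T = (∑ T, (hat f T + hat g T) ^ 2 - ∑ T, (hat f T - hat g T) ^ 2) / 4 := by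
    rw [← Finset.sum_sub_distrib, Finset.sum_div]
    exact Finset.sum_congr rfl fun T _ => by ring
  rw [h3, h1, h2, ← av_sub, div_eq_mul_inv, ← av_mul_right]
  exact av_congr fun A => by ring

theorem ch_univ (T A : Finset ι) : ch T A = ∏ i, if i ∈ T then sg A i else 1 := by
  unfold ch
  rw [Finset.prod_ite_mem]
  simp

theorem ch_mul_ch (S T A : Finset ι) : ch S A * ch T A = ch (symmDiff S T) A := by
  rw [ch_univ, ch_univ, ch_univ, ← Finset.prod_mul_distrib]
  refine Finset.prod_congr rfl fun i _ => ?_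
  simp only [Finset.mem_symmDiff]
  have := sg_sq A i
  by_cases h1 : i ∈ S <;> by_cases h2 : i ∈ T <;> simp [h1, h2, this]

theorem av_mul_sq (v h : Finset ι → ℝ) :
    av (fun Y => v Y * h Y ^ 2) = ∑ S, ∑ S', hat v (symmDiff S S') * (hat h S * hat h S') := by
  have h1 : av (fun Y => v Y * h Y ^ 2) = ∑ S, hat (fun Y => v Y * h Y) S * hat h S := by
    rw [parseval_mul]; exact av_congr fun Y => by ring
  have h2 : ∀ S, hat (fun Y => v Y * h Y) S = ∑ S', hat v (symmDiff S S') * hat h S' := by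
    intro S
    have e1 : hat (fun Y => v Y * h Y) S = av (fun Y => (v Y * ch S Y) * h Y) := by
      unfold hat; exact av_congr fun Y => by ring
    rw [e1, ← parseval_mul]
    refine Finset.sum_congr rfl fun S' _ => ?_
    congr 1
    unfold hat
    refine av_congr fun Y => ?_
    rw [mul_assoc, ch_mul_ch]
  rw [h1]
  refine Finset.sum_congr rfl fun S _ => ?_
  rw [h2, Finset.sum_mul]
  exact Finset.sum_congr rfl fun S' _ => by ring

theorem hs {J : Type*} [Fintype J] [DecidableEq J] (SS : Finset (Finset ι)) (v : Finset ι → ℝ)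
    (h : J → Finset ι → ℝ) (h0 : ∀ j, ∀ S, S ∉ SS → hat (h j) S = 0)
    (h1 : ∀ j j', av (fun Y => h j Y * h j' Y) = if j = j' then 1 else 0) :
    ∑ j, (av (fun Y => v Y * h j Y ^ 2)) ^ 2 ≤ ∑ S ∈ SS, ∑ S' ∈ SS, hat v (symmDiff S S') ^ 2 := by
  let E : J → Finset ι × Finset ι → ℝ := fun j x => hat (h j) x.1 * hat (h j) x.2
  let M : Finset ι × Finset ι → ℝ := fun x =>
    if x.1 ∈ SS ∧ x.2 ∈ SS then hat v (symmDiff x.1 x.2) else 0
  have hE : ∀ j k, ∑ x, E j x * E k x = if j = k then 1 else 0 := by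
    intro j k
    have e1 : ∑ x, E j x * E k x = (∑ S, hat (h j) S * hat (h k) S) * (∑ S, hat (h j) S * hat (h k) S) := by
      rw [Fintype.sum_prod_type, Finset.sum_mul_sum]
      exact Finset.sum_congr rfl fun S _ => Finset.sum_congr rfl fun S' _ => by simp only [E]; ring
    rw [e1, parseval_mul, h1]
    split_ifs <;> simp
  have hb := bessel E M hE
  have hM : ∑ x, M x ^ 2 = ∑ S ∈ SS, ∑ S' ∈ SS, hat v (symmDiff S S') ^ 2 := by
    rw [Fintype.sum_prod_type]
    have e1 : ∀ S : Finset ι, ∑ S', M (S, S') ^ 2 =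
        if S ∈ SS then ∑ S' ∈ SS, hat v (symmDiff S S') ^ 2 else 0 := by
      intro S
      by_cases hS : S ∈ SS
      · rw [if_pos hS]
        have e2 : ∑ S' ∈ SS, hat v (symmDiff S S') ^ 2 =
            ∑ S', if S' ∈ SS then hat v (symmDiff S S') ^ 2 else 0 := by simp
        rw [e2]
        refine Finset.sum_congr rfl fun S' _ => ?_
        simp only [M, hS, true_and]
        split_ifs <;> simp
      · rw [if_neg hS]
        exact Finset.sum_eq_zero fun S' _ => by simp [M, hS]
    simp only [e1]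
    simp
  have hE2 : ∀ j, ∑ x, M x * E j x = av (fun Y => v Y * h j Y ^ 2) := by
    intro j
    rw [av_mul_sq, Fintype.sum_prod_type]
    refine Finset.sum_congr rfl fun S _ => Finset.sum_congr rfl fun S' _ => ?_
    simp only [M, E]
    split_ifs with hx
    · rfl
    · have : hat (h j) S = 0 ∨ hat (h j) S' = 0 := by
        by_contra hc
        push Not at hc
        refine hx ⟨?_, ?_⟩
        · by_contra hS; exact hc.1 (h0 j S hS)
        · by_contra hS; exact hc.2 (h0 j S' hS)
      rcases this with h | h <;> simp [h]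
  rw [hM] at hb
  simp only [hE2] at hb
  exact hb

end Pool.Agent.H19.Chv
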